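import Pool.Agent.R614.NF.Local

set_option autoImplicit false

/-!
Embeddings in the real and the `p`-adic numbers, and orderings, as local places.
-/

namespace Pool.Agent.R614.NF

open Pool.Agent.W882.Nip3 Pool.Agent.TH686.NF NNReal
open Pool.Agent.Results.MP_3554b5_lc.UnramifiedNorms

/-- An embedding of `K` in the field of real numbers or in a field `ℚ_p`, `p` any prime. -/
inductive Embedding (K : Type) [Field K] : Type
  | real (f : K →+* ℝ) : Embedding K
  | padic (p : ℕ) (hp : Fact p.Prime) (f : K →+* ℚ_[p]) : Embedding K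

/-- An ordering of the field `K`. -/
structure FieldOrder (K : Type) [Field K] extends LinearOrder K where
  ord : IsStrictOrderedRing K

section emb

variable {K : Type} [Field K]

def ofReal (f : K →+* ℝ) : RealPlace K where
  O := ⊤
  κ := K
  field := inferInstance
  π := (⊤ : ValuationSubring K).subtype
  surjective x := ⟨⟨x, trivial⟩, rfl⟩
  σ := f

theorem mem_ball_ofReal (f : K →+* ℝ) (x : K) :
    x ∈ (LocalPlace.real (ofReal f)).ball ↔ |f x| ≤ 1 :=
  ⟨fun h => h.2, fun h => ⟨trivial, h⟩⟩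

/-- the valuation of a `p`-adic embedding -/
noncomputable def pval (p : ℕ) [hp : Fact p.Prime] (f : K →+* ℚ_[p]) : Valuation K ℝ≥0 :=
  (NormedField.valuation (K := ℚ_[p])).comap f

theorem pval_apply (p : ℕ) [hp : Fact p.Prime] (f : K →+* ℚ_[p]) (x : K) :
    ((pval p f x : ℝ≥0) : ℝ) = ‖f x‖ := rfl

/-- the map of the valuation ring in `ℤ_p` -/
noncomputable def toInt (p : ℕ) [hp : Fact p.Prime] (f : K →+* ℚ_[p]) :
    (pval p f).valuationSubring →+* ℤ_[p] where
  toFun x := ⟨f x.1, by
    have h : (pval p f) x.1 ≤ 1 := x.2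
    have h2 : ((pval p f x.1 : ℝ≥0) : ℝ) ≤ 1 := by exact_mod_cast h
    rwa [pval_apply] at h2⟩
  map_one' := Subtype.ext (map_one f)
  map_mul' x y := Subtype.ext (map_mul f _ _)
  map_zero' := Subtype.ext (map_zero f)
  map_add' x y := Subtype.ext (map_add f _ _)

theorem isLocalHom_toZMod (p : ℕ) [hp : Fact p.Prime] (f : K →+* ℚ_[p]) :
    IsLocalHom ((PadicInt.toZMod (p := p)).comp (toInt p f)) := by
  refine ⟨fun a ha => ?_⟩
  by_contra hcon
  have h1 : IsLocalRing.residue _ a = 0 := by
    rw [IsLocalRing.residue_eq_zero_iff, IsLocalRing.mem_maximalIdeal, mem_nonunits_iff]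
    exact hcon
  rw [residue_eq_zero_iff] at h1
  have h2 : ‖f a.1‖ < 1 := by
    rw [← pval_apply]
    exact_mod_cast h1
  have h3 : toInt p f a ∈ IsLocalRing.maximalIdeal ℤ_[p] := by
    rw [IsLocalRing.mem_maximalIdeal]
    exact PadicInt.mem_nonunits.2 h2
  rw [← PadicInt.ker_toZMod, RingHom.mem_ker] at h3
  rw [RingHom.comp_apply, h3] at ha
  exact not_isUnit_zero ha

noncomputable def ofPadic (p : ℕ) [hp : Fact p.Prime] (f : K →+* ℚ_[p]) : ValuedPlace K :=
  ofValuation (pval p f)

theorem ofPadic_isLocal (p : ℕ) [hp : Fact p.Prime] (f : K →+* ℚ_[p]) :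
    (ofPadic p f).IsLocal := by
  constructor
  · change Finite (IsLocalRing.ResidueField (pval p f).valuationSubring)
    have := isLocalHom_toZMod p f
    exact Finite.of_injective
      (IsLocalRing.ResidueField.lift ((PadicInt.toZMod (p := p)).comp (toInt p f)))
      (RingHom.injective _)
  · change ∃ ϖ : K, pval p f ϖ ≠ 0 ∧ pval p f ϖ < 1 ∧
      ∀ a : K, a ≠ 0 → ∃ n : ℤ, pval p f a = pval p f ϖ ^ n
    have hp0 : (0 : ℝ) < p := by exact_mod_cast hp.out.pos
    have hp1 : (1 : ℝ) < p := by exact_mod_cast hp.out.one_lt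
    have h1 : ((pval p f (p : K) : ℝ≥0) : ℝ) = (p : ℝ)⁻¹ := by
      rw [pval_apply, map_natCast, Padic.norm_p]
    refine ⟨(p : K), ?_, ?_, ?_⟩
    · intro h
      rw [h] at h1
      have : (p : ℝ)⁻¹ ≠ 0 := inv_ne_zero hp0.ne'
      exact this h1.symm
    · have h2 : ((pval p f (p : K) : ℝ≥0) : ℝ) < 1 := by
        rw [h1]
        exact inv_lt_one_of_one_lt₀ hp1
      exact_mod_cast h2
    · intro a ha
      have hfa : f a ≠ 0 := by
        intro h
        exact ha (f.injective (by rw [h, map_zero]))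
      refine ⟨(f a).valuation, ?_⟩
      apply NNReal.coe_injective
      rw [NNReal.coe_zpow, h1, pval_apply, Padic.norm_eq_zpow_neg_valuation hfa, inv_zpow, zpow_neg]

theorem mem_ball_ofPadic (p : ℕ) [hp : Fact p.Prime] (f : K →+* ℚ_[p]) (x : K) :
    x ∈ (LocalPlace.nonarch (ofPadic p f) (ofPadic_isLocal p f)).ball ↔ ‖f x‖ ≤ 1 := by
  constructor
  · rintro ⟨h0, h⟩
    change pval p f x ≤ 1 at h
    rw [← pval_apply]
    exact_mod_cast h
  · intro h
    refine ⟨trivial, ?_⟩
    change pval p f x ≤ 1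
    rw [← pval_apply] at h
    exact_mod_cast h

noncomputable def Embedding.toLocal : Embedding K → LocalPlace K
  | .real f => .real (ofReal f)
  | .padic p _ f => .nonarch (ofPadic p f) (ofPadic_isLocal p f)

theorem real_eq_of_ball {f g : K →+* ℝ} (h : ∀ x, |f x| ≤ 1 → |g x| ≤ 1) : f = g := by
  ext x
  by_contra hne
  have hδ : 0 < |f x - g x| := abs_pos.2 (sub_ne_zero.2 hne)
  obtain ⟨n, hn⟩ := exists_nat_gt (2 / |f x - g x|)
  have hn0 : (0 : ℝ) < n := lt_trans (div_pos two_pos hδ) hn
  rw [div_lt_iff₀ hδ] at hn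
  obtain ⟨q, hq1, hq2⟩ := exists_rat_btwn (show f x - 1 / n < f x + 1 / n by
    have : (0 : ℝ) < 1 / n := by positivity
    linarith)
  have h1 : |f x - q| ≤ 1 / n := by
    rw [abs_le]
    constructor <;> linarith
  have h2 := h ((n : K) * (x - (q : K))) (by
    rw [map_mul, map_natCast, map_sub, map_ratCast, abs_mul, abs_of_pos hn0]
    calc (n : ℝ) * |f x - q| ≤ n * (1 / n) := by gcongr
      _ = 1 := by field_simp)
  rw [map_mul, map_natCast, map_sub, map_ratCast, abs_mul, abs_of_pos hn0] at h2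
  have h3 : |f x - g x| ≤ |f x - q| + |g x - q| := by
    have : f x - g x = (f x - q) - (g x - q) := by ring
    rw [this]
    exact abs_sub _ _
  have h4 : (n : ℝ) * |f x - g x| ≤ n * (1 / n) + n * |g x - q| := by
    calc (n : ℝ) * |f x - g x| ≤ n * (|f x - q| + |g x - q|) := by gcongr
      _ ≤ n * (1 / n + |g x - q|) := by gcongr
      _ = _ := by ring
  have h5 : (n : ℝ) * (1 / n) = 1 := by field_simp
  linarith

theorem padic_eq_of_ball (p : ℕ) [hp : Fact p.Prime] {f g : K →+* ℚ_[p]}
    (h : ∀ x, ‖f x‖ ≤ 1 → ‖g x‖ ≤ 1) : f = g := by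
  ext x
  by_contra hne
  have hδ : 0 < ‖f x - g x‖ := norm_pos_iff.2 (sub_ne_zero.2 hne)
  have hp1 : (1 : ℝ) < p := by exact_mod_cast hp.out.one_lt
  have hp0 : (0 : ℝ) < p := by linarith
  obtain ⟨k, hk⟩ := exists_pow_lt_of_lt_one hδ (inv_lt_one_of_one_lt₀ hp1)
  obtain ⟨q, hq⟩ := Padic.rat_dense p (f x) (show (0 : ℝ) < ((p : ℝ)⁻¹) ^ k by positivity)
  have hpk : ∀ y : ℚ_[p], ‖((p : ℚ_[p])⁻¹) ^ k * y‖ = (p : ℝ) ^ k * ‖y‖ := by
    intro y
    rw [norm_mul, norm_pow, norm_inv, Padic.norm_p, inv_inv]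
  have h2 := h (((p : K)⁻¹) ^ k * (x - (q : K))) (by
    rw [map_mul, map_pow, map_inv₀, map_natCast, map_sub, map_ratCast, hpk]
    calc (p : ℝ) ^ k * ‖f x - q‖ ≤ (p : ℝ) ^ k * ((p : ℝ)⁻¹) ^ k := by gcongr
      _ = 1 := by rw [← mul_pow, mul_inv_cancel₀ hp0.ne', one_pow])
  rw [map_mul, map_pow, map_inv₀, map_natCast, map_sub, map_ratCast, hpk] at h2
  have h3 : ‖g x - q‖ ≤ ((p : ℝ)⁻¹) ^ k := by
    rw [inv_pow, ← one_div, le_div_iff₀ (by positivity), mul_comm]
    exact h2
  have h4 : ‖f x - g x‖ ≤ max ‖f x - q‖ ‖g x - q‖ := by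
    have h6 : f x - g x = (f x - q) + -(g x - q) := by ring
    rw [h6, ← norm_neg (g x - q)]
    exact Padic.nonarchimedean _ _
  have h5 := h4.trans (max_le hq.le h3)
  linarith

theorem Embedding.eq_of_ball {e e' : Embedding K} (h : e.toLocal.ball = e'.toLocal.ball) :
    e = e' := by
  have hrp : ∀ (f : K →+* ℝ) (p : ℕ) (hp : Fact p.Prime) (g : K →+* ℚ_[p]),
      (Embedding.real f).toLocal.ball ≠ (Embedding.padic p hp g).toLocal.ball := by
    intro f p hp g h
    have hp1 : (1 : ℝ) < p := by exact_mod_cast hp.out.one_lt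
    have h1 : ((p : K))⁻¹ ∈ (Embedding.real f).toLocal.ball := by
      refine (mem_ball_ofReal f _).2 ?_
      rw [map_inv₀, map_natCast, abs_of_nonneg (by positivity)]
      exact (inv_lt_one_of_one_lt₀ hp1).le
    rw [h] at h1
    have h2 := (mem_ball_ofPadic p g _).1 h1
    rw [map_inv₀, map_natCast, norm_inv, Padic.norm_p, inv_inv] at h2
    linarith
  cases e with
  | real f =>
    cases e' with
    | real g =>
      have h1 : f = g := real_eq_of_ball fun x hx => by
        have h2 : x ∈ (Embedding.real f).toLocal.ball := (mem_ball_ofReal f x).2 hx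
        rw [h] at h2
        exact (mem_ball_ofReal g x).1 h2
      rw [h1]
    | padic p hp g => exact (hrp f p hp g h).elim
  | padic p hp f =>
    cases e' with
    | real g => exact (hrp g p hp f h.symm).elim
    | padic p' hp' g =>
      by_cases hpp : p = p'
      · subst hpp
        have h1 : f = g := padic_eq_of_ball p fun x hx => by
          have h2 : x ∈ (Embedding.padic p hp f).toLocal.ball := (mem_ball_ofPadic p f x).2 hx
          rw [h] at h2
          exact (mem_ball_ofPadic p g x).1 h2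
        rw [h1]
      · exfalso
        have hp1 : (1 : ℝ) < p' := by exact_mod_cast hp'.out.one_lt
        have h1 : ((p' : K))⁻¹ ∈ (Embedding.padic p hp f).toLocal.ball := by
          refine (mem_ball_ofPadic p f _).2 ?_
          rw [map_inv₀, map_natCast, norm_inv]
          have h3 : ‖(p' : ℚ_[p])‖ = 1 := by
            have h4 : ¬ ‖((p' : ℤ) : ℚ_[p])‖ < 1 := by
              rw [Padic.norm_intCast_lt_one_iff]
              intro h5
              have h6 : p ∣ p' := by exact_mod_cast h5
              exact hpp ((Nat.prime_dvd_prime_iff_eq hp.out hp'.out).1 h6)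
            rw [Int.cast_natCast] at h4
            refine le_antisymm ?_ (not_lt.1 h4)
            have h7 := Padic.norm_int_le_one (p := p) (p' : ℤ)
            rwa [Int.cast_natCast] at h7
          rw [h3, inv_one]
        rw [h] at h1
        have h2 := (mem_ball_ofPadic p' g _).1 h1
        rw [map_inv₀, map_natCast, norm_inv, Padic.norm_p, inv_inv] at h2
        linarith

end emb

/-! ### orderings -/

section order

open ArchimedeanClass

variable {K : Type} [Field K]

/-- the real place of an ordering -/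
noncomputable def ofOrder [LinearOrder K] [IsStrictOrderedRing K] : RealPlace K where
  O := (addValuation K).toValuation.valuationSubring
  κ := FiniteResidueField K
  field := inferInstance
  π := (FiniteResidueField.mk : FiniteElement K →+*o FiniteResidueField K).toRingHom
  surjective x := by
    induction x with | mk x
    exact ⟨x, rfl⟩
  σ := (Classical.ofNonempty : FiniteResidueField K →+*o ℝ).toRingHom

theorem ofOrder_mono [LinearOrder K] [IsStrictOrderedRing K] {x y : K}
    (hx : x ∈ (ofOrder (K := K)).O) (hy : y ∈ (ofOrder (K := K)).O) (h : x ≤ y) :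
    (ofOrder (K := K)).σ ((ofOrder (K := K)).π ⟨x, hx⟩) ≤
      (ofOrder (K := K)).σ ((ofOrder (K := K)).π ⟨y, hy⟩) := by
  have h1 : (FiniteElement.mk x hx : FiniteElement K) ≤ FiniteElement.mk y hy := h
  have h2 := (FiniteResidueField.mk (K := K)).monotone' h1
  exact (Classical.ofNonempty : FiniteResidueField K →+*o ℝ).monotone' h2

theorem ofOrder_int [LinearOrder K] [IsStrictOrderedRing K] (n : ℤ)
    (hn : (n : K) ∈ (ofOrder (K := K)).O) :
    (ofOrder (K := K)).σ ((ofOrder (K := K)).π ⟨(n : K), hn⟩) = n := by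
  have h1 : (⟨(n : K), hn⟩ : (ofOrder (K := K)).O) = (n : (ofOrder (K := K)).O) := rfl
  rw [h1, map_intCast, map_intCast]

theorem mem_ball_ofOrder [LinearOrder K] [IsStrictOrderedRing K] {x : K} (h1 : -1 < x)
    (h2 : x < 1) : x ∈ (LocalPlace.real (ofOrder (K := K))).ball := by
  have h0 : 0 ≤ ArchimedeanClass.mk x := by
    rw [← ArchimedeanClass.mk_one]
    apply ArchimedeanClass.mk_le_mk_of_abs
    rw [abs_one, abs_le]
    exact ⟨h1.le, h2.le⟩
  have hx : x ∈ (ofOrder (K := K)).O := h0
  refine ⟨hx, ?_⟩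
  rw [abs_le]
  constructor
  · have h3 := ofOrder_mono (x := ((-1 : ℤ) : K)) (y := x) (intCast_mem _ _) hx (by
      push_cast; exact h1.le)
    rw [ofOrder_int] at h3
    push_cast at h3
    exact h3
  · have h3 := ofOrder_mono (x := x) (y := ((1 : ℤ) : K)) hx (intCast_mem _ _) (by
      push_cast; exact h2.le)
    rw [ofOrder_int] at h3
    push_cast at h3
    exact h3

theorem lt_of_mem_ball_ofOrder [LinearOrder K] [IsStrictOrderedRing K] {x : K}
    (h : x ∈ (LocalPlace.real (ofOrder (K := K))).ball) : -2 < x ∧ x < 2 := by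
  obtain ⟨hx, h1⟩ := h
  rw [abs_le] at h1
  constructor
  · by_contra hcon
    rw [not_lt] at hcon
    have h3 := ofOrder_mono (x := x) (y := ((-2 : ℤ) : K)) hx (intCast_mem _ _) (by
      push_cast; exact hcon)
    rw [ofOrder_int] at h3
    push_cast at h3
    linarith
  · by_contra hcon
    rw [not_lt] at hcon
    have h3 := ofOrder_mono (x := ((2 : ℤ) : K)) (y := x) (intCast_mem _ _) hx (by
      push_cast; exact hcon)
    rw [ofOrder_int] at h3
    push_cast at h3
    linarith

end order

end Pool.Agent.R614.NF
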