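import Pool.Agent.Results.MP_3554b5_lc.UnramifiedNorms

set_option autoImplicit false

/-!
Places of a field with values in the local fields other than the complex numbers, and the calculus
of the sets of the elements of absolute value at most one (less than one) at such a place.
-/

namespace Pool.Agent.R614.NF

open Pool.Agent.W882.Nip3 Pool.Agent.TH686.NF NNReal
open Pool.Agent.Results.MP_3554b5_lc.UnramifiedNorms

/-! ### general calculus -/

/-- `x` has absolute value at most one at the place. -/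
def Ball {K : Type} [Field K] (P : Place K) (x : K) : Prop :=
  ∃ h : x ∈ P.O, ‖P.res ⟨x, h⟩‖ ≤ 1

section calculus

variable {K : Type} [Field K] (P : Place K)

theorem ball_of_small {x : K} (h : P.Small x) : Ball P x := ⟨h.1, h.2.le⟩

theorem small_mul {x y : K} (hx : P.Small x) (hy : Ball P y) : P.Small (x * y) := by
  obtain ⟨h1, h2⟩ := hx
  obtain ⟨h3, h4⟩ := hy
  refine ⟨P.O.mul_mem _ _ h1 h3, ?_⟩
  have h5 : (⟨x * y, P.O.mul_mem _ _ h1 h3⟩ : P.O) = ⟨x, h1⟩ * ⟨y, h3⟩ := rfl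
  rw [h5, map_mul, norm_mul]
  exact mul_lt_one_of_nonneg_of_lt_one_left (norm_nonneg _) h2 h4

theorem ball_one : Ball P 1 := by
  refine ⟨P.O.one_mem, ?_⟩
  have h5 : (⟨1, P.O.one_mem⟩ : P.O) = 1 := rfl
  rw [h5, map_one, norm_one]

theorem ball_zero : Ball P 0 := by
  refine ⟨P.O.zero_mem, ?_⟩
  have h5 : (⟨0, P.O.zero_mem⟩ : P.O) = 0 := rfl
  rw [h5, map_zero, norm_zero]
  exact zero_le_one

theorem not_small_one : ¬ P.Small 1 := by
  rintro ⟨h1, h2⟩
  have h5 : (⟨1, h1⟩ : P.O) = 1 := rfl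
  rw [h5, map_one, norm_one] at h2
  exact lt_irrefl _ h2

theorem ne_zero_of_not_ball {x : K} (h : ¬ Ball P x) : x ≠ 0 := by
  rintro rfl
  exact h (ball_zero P)

theorem small_inv_of_not_ball {x : K} (h : ¬ Ball P x) : P.Small x⁻¹ := by
  have hx0 := ne_zero_of_not_ball P h
  by_cases hx : x ∈ P.O
  · have h1 : 1 < ‖P.res ⟨x, hx⟩‖ := by
      by_contra hcon
      exact h ⟨hx, not_lt.1 hcon⟩
    have h2 : IsUnit (⟨x, hx⟩ : P.O) := by
      apply P.isUnit_of_res_ne_zero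
      intro h0
      rw [h0, norm_zero] at h1
      linarith
    obtain ⟨u, hu⟩ := h2
    have h3 : ((u⁻¹ : P.Oˣ) : P.O).1 = x⁻¹ := by
      have h4 : (u : P.O) * ((u⁻¹ : P.Oˣ) : P.O) = 1 := u.mul_inv
      have h5 := congrArg Subtype.val h4
      rw [hu] at h5
      change x * _ = 1 at h5
      exact eq_inv_of_mul_eq_one_right h5
    have h6 : x⁻¹ ∈ P.O := h3 ▸ ((u⁻¹ : P.Oˣ) : P.O).2
    refine ⟨h6, ?_⟩
    have h7 : (⟨x, hx⟩ : P.O) * ⟨x⁻¹, h6⟩ = 1 := Subtype.ext (mul_inv_cancel₀ hx0)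
    have h8 : ‖P.res ⟨x, hx⟩‖ * ‖P.res ⟨x⁻¹, h6⟩‖ = 1 := by
      rw [← norm_mul, ← map_mul, h7, map_one, norm_one]
    by_contra hcon
    rw [not_lt] at hcon
    nlinarith
  · have h6 : x⁻¹ ∈ P.O := (P.O.mem_or_inv_mem x).resolve_left hx
    refine ⟨h6, ?_⟩
    have h7 : P.res ⟨x⁻¹, h6⟩ = 0 := by
      by_contra h0
      obtain ⟨u, hu⟩ := P.isUnit_of_res_ne_zero _ h0
      apply hx
      have h4 : (u : P.O) * ((u⁻¹ : P.Oˣ) : P.O) = 1 := u.mul_inv
      have h5 := congrArg Subtype.val h4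
      rw [hu] at h5
      change x⁻¹ * _ = 1 at h5
      have h8 : ((u⁻¹ : P.Oˣ) : P.O).1 = x := by
        rw [eq_inv_of_mul_eq_one_right h5, inv_inv]
      exact h8 ▸ ((u⁻¹ : P.Oˣ) : P.O).2
    rw [h7, norm_zero]
    exact zero_lt_one

theorem small_pow {x : K} (h : P.Small x) (n : ℕ) : P.Small (x ^ (n + 1)) := by
  induction n with
  | zero => simpa using h
  | succ n ih =>
    rw [pow_succ]
    exact small_mul P ih (ball_of_small P h)

theorem incomparable_symm {P Q : Place K} (h : P.Incomparable Q) : Q.Incomparable P := by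
  obtain ⟨x, hx0, h1, h2⟩ := h
  exact ⟨x⁻¹, inv_ne_zero hx0, h2, by rwa [inv_inv]⟩

/-- Two places such that none of the two balls is contained in the other one are incomparable. -/
theorem incomparable_of_not_nested {P Q : Place K} {a b : K} (ha : Ball P a) (ha' : ¬ Ball Q a)
    (hb : Ball Q b) (hb' : ¬ Ball P b) : P.Incomparable Q := by
  refine ⟨b⁻¹ * a, mul_ne_zero (inv_ne_zero (ne_zero_of_not_ball P hb'))
    (ne_zero_of_not_ball Q ha'), small_mul P (small_inv_of_not_ball P hb') ha, ?_⟩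
  rw [mul_inv, inv_inv, mul_comm]
  exact small_mul Q (small_inv_of_not_ball Q ha') hb

end calculus

/-! ### local places -/

/-- The place is local: the residue field of `v` is finite and the value group of `v` is infinite
cyclic. (So the completion of the residue field of `O` with respect to `v` is a nonarchimedean
local field.) -/
def _root_.Pool.Agent.Results.MP_3554b5_lc.UnramifiedNorms.ValuedPlace.IsLocal {K : Type} [Field K]
    (P : ValuedPlace K) : Prop :=
  Finite (IsLocalRing.ResidueField P.v.valuationSubring) ∧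
    ∃ ϖ : P.κ, P.v ϖ ≠ 0 ∧ P.v ϖ < 1 ∧ ∀ a : P.κ, a ≠ 0 → ∃ n : ℤ, P.v a = P.v ϖ ^ n

/-- A place with values in a local field other than the complex numbers: a real place or a
nonarchimedean local place. -/
inductive LocalPlace (K : Type) [Field K] : Type 1
  | real (P : RealPlace K) : LocalPlace K
  | nonarch (P : ValuedPlace K) (h : P.IsLocal) : LocalPlace K

/-- The set of the elements which have absolute value at most one at the place. -/
def LocalPlace.ball {K : Type} [Field K] : LocalPlace K → Set K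
  | .real P => {x | ∃ h : x ∈ P.O, |P.σ (P.π ⟨x, h⟩)| ≤ 1}
  | .nonarch P _ => {x | ∃ h : x ∈ P.O, P.v (P.π ⟨x, h⟩) ≤ 1}

section

variable {K : Type} [Field K]

theorem exists_gt_of_local (P : ValuedPlace K) (h : P.IsLocal) : ∃ a, 1 < P.v a := by
  obtain ⟨-, ϖ, h0, h1, -⟩ := h
  refine ⟨ϖ⁻¹, ?_⟩
  rw [map_inv₀]
  exact (one_lt_inv₀ (pos_iff_ne_zero.2 h0)).2 h1

theorem not_tame_of_local (P : ValuedPlace K) (h : P.IsLocal) : ¬ P.TameUpTo 2 := by
  obtain ⟨hfin, ϖ, h0, h1, h2⟩ := h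
  intro H
  obtain ⟨H1, -⟩ := H 2 (by norm_num) le_rfl
  rcases H1 with H1 | H1
  · obtain ⟨c, hc⟩ := H1 ϖ
    have hc0 : c ≠ 0 := by
      rintro rfl
      rw [map_zero, zero_pow two_ne_zero] at hc
      exact h0 hc
    obtain ⟨n, hn⟩ := h2 c hc0
    rw [hn, ← zpow_natCast, ← zpow_mul] at hc
    have hpos : 0 < P.v ϖ := pos_iff_ne_zero.2 h0
    have h3 : (P.v ϖ) ^ (1 : ℤ) = (P.v ϖ) ^ (n * ((2 : ℕ) : ℤ)) := by rw [zpow_one]; exact hc
    have h4 := (zpow_right_injective₀ hpos h1.ne) h3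
    push_cast at h4
    omega
  · apply H1
    haveI := hfin
    obtain ⟨p, hp⟩ := CharP.exists (IsLocalRing.ResidueField P.v.valuationSubring)
    haveI : Fact p.Prime := ⟨CharP.char_is_prime (IsLocalRing.ResidueField P.v.valuationSubring) p⟩
    refine ⟨FiniteField.Extension (IsLocalRing.ResidueField P.v.valuationSubring) p 2,
      inferInstance, inferInstance, ?_, FiniteField.finrank_extension _ _ _⟩
    exact inferInstance

/-- the corresponding place with values in a complete field -/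
noncomputable def LocalPlace.toPl : LocalPlace K → Place K
  | .real P => realToPlace P
  | .nonarch P h => toPlace P (exists_gt_of_local P h)

theorem toPl_not_dimLe (P : LocalPlace K) : ¬ DimLeOneUpTo P.toPl.F 2 := by
  cases P with
  | real P => exact real_not_dimLe
  | nonarch P h => exact not_dimLe_of_not_tame P (not_tame_of_local P h)

theorem ball_toPl (P : LocalPlace K) (x : K) : Ball P.toPl x ↔ x ∈ P.ball := by
  cases P with
  | real P => exact Iff.rfl
  | nonarch P h =>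
    constructor
    · rintro ⟨h1, h2⟩
      refine ⟨h1, ?_⟩
      change ‖emb P.v (P.π ⟨x, h1⟩)‖ ≤ 1 at h2
      rw [norm_emb] at h2
      exact_mod_cast h2
    · rintro ⟨h1, h2⟩
      refine ⟨h1, ?_⟩
      change ‖emb P.v (P.π ⟨x, h1⟩)‖ ≤ 1
      rw [norm_emb]
      exact_mod_cast h2

theorem small_toPl_nonarch (P : ValuedPlace K) (h : P.IsLocal) (x : K) :
    (LocalPlace.nonarch P h).toPl.Small x ↔ P.Small x := by
  constructor
  · rintro ⟨h1, h2⟩
    refine ⟨h1, ?_⟩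
    change ‖emb P.v (P.π ⟨x, h1⟩)‖ < 1 at h2
    rw [norm_emb] at h2
    exact_mod_cast h2
  · rintro ⟨h1, h2⟩
    refine ⟨h1, ?_⟩
    change ‖emb P.v (P.π ⟨x, h1⟩)‖ < 1
    rw [norm_emb]
    exact_mod_cast h2

/-! ### real places -/

theorem real_charZero (P : RealPlace K) : CharZero P.κ := by
  refine ⟨fun a b hab => ?_⟩
  have h4 := congrArg P.σ hab
  rw [map_natCast, map_natCast] at h4
  exact_mod_cast h4

theorem real_isUnit_nat (P : RealPlace K) {n : ℕ} (hn : n ≠ 0) : IsUnit (n : P.O) := by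
  haveI := real_charZero P
  apply isUnit_of_ne P.O P.π P.surjective
  rw [map_natCast]
  exact_mod_cast hn

theorem real_nat_ne_zero (P : RealPlace K) {n : ℕ} (hn : n ≠ 0) : (n : K) ≠ 0 := by
  intro h
  have h1 : (n : P.O) = 0 := Subtype.ext h
  have h2 := real_isUnit_nat P hn
  rw [h1] at h2
  exact not_isUnit_zero h2

theorem real_inv_nat_mem (P : RealPlace K) {n : ℕ} (hn : n ≠ 0) :
    ∃ h : ((n : K))⁻¹ ∈ P.O, P.σ (P.π ⟨(n : K)⁻¹, h⟩) = ((n : ℝ))⁻¹ := by
  obtain ⟨u, hu⟩ := real_isUnit_nat P hn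
  have h4 : (u : P.O) * ((u⁻¹ : P.Oˣ) : P.O) = 1 := u.mul_inv
  have h5 := congrArg Subtype.val h4
  rw [hu] at h5
  change (n : K) * _ = 1 at h5
  have h3 : ((u⁻¹ : P.Oˣ) : P.O).1 = (n : K)⁻¹ := eq_inv_of_mul_eq_one_right h5
  have h6 : (n : K)⁻¹ ∈ P.O := h3 ▸ ((u⁻¹ : P.Oˣ) : P.O).2
  refine ⟨h6, ?_⟩
  have h7 : (n : P.O) * ⟨(n : K)⁻¹, h6⟩ = 1 :=
    Subtype.ext (mul_inv_cancel₀ (real_nat_ne_zero P hn))
  have h8 : (n : ℝ) * P.σ (P.π ⟨(n : K)⁻¹, h6⟩) = 1 := by
    have h9 := congrArg (fun z => P.σ (P.π z)) h7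
    simp only [map_mul, map_natCast, map_one] at h9
    exact h9
  exact eq_inv_of_mul_eq_one_right h8

/-- the value of a product with `m / n` -/
theorem real_frac_mul (P : RealPlace K) {x : K} (hx : x ∈ P.O) (m : ℕ) {n : ℕ} (hn : n ≠ 0) :
    ∃ h : (m : K) * (n : K)⁻¹ * x ∈ P.O,
      P.σ (P.π ⟨_, h⟩) = (m : ℝ) * (n : ℝ)⁻¹ * P.σ (P.π ⟨x, hx⟩) := by
  obtain ⟨h1, h2⟩ := real_inv_nat_mem P hn
  have h3 : (m : K) * (n : K)⁻¹ * x ∈ P.O :=
    P.O.mul_mem _ _ (P.O.mul_mem _ _ (natCast_mem P.O m) h1) hx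
  refine ⟨h3, ?_⟩
  have h4 : (⟨_, h3⟩ : P.O) = (m : P.O) * ⟨(n : K)⁻¹, h1⟩ * ⟨x, hx⟩ := rfl
  rw [h4, map_mul, map_mul, map_mul, map_mul, map_natCast, map_natCast, h2]

theorem real_incomparable_aux (P Q : RealPlace K) {x : K} (hP : Ball (realToPlace P) x)
    (hQ : ¬ Ball (realToPlace Q) x) : (realToPlace P).Incomparable (realToPlace Q) := by
  have hx0 := ne_zero_of_not_ball _ hQ
  obtain ⟨h1, h2⟩ := hP
  change |P.σ (P.π ⟨x, h1⟩)| ≤ 1 at h2
  -- find a fraction `m / n < 1` such that `m / n * x` is not in the ball of `Q`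
  obtain ⟨m, n, hm, hn, hmn, hy⟩ : ∃ m n : ℕ, m ≠ 0 ∧ n ≠ 0 ∧ m < n ∧
      ¬ Ball (realToPlace Q) ((m : K) * (n : K)⁻¹ * x) := by
    by_cases hx : x ∈ Q.O
    · have h3 : 1 < |Q.σ (Q.π ⟨x, hx⟩)| := by
        by_contra hcon
        exact hQ ⟨hx, not_lt.1 hcon⟩
      obtain ⟨n, hn⟩ := exists_nat_gt (1 / (|Q.σ (Q.π ⟨x, hx⟩)| - 1))
      refine ⟨n + 1, n + 2, by omega, by omega, by omega, ?_⟩
      rintro ⟨h4, h5⟩
      change |Q.σ (Q.π ⟨_, h4⟩)| ≤ 1 at h5
      obtain ⟨h6, h7⟩ := real_frac_mul Q hx (n + 1) (n := n + 2) (by omega)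
      rw [h7, abs_mul] at h5
      have h8 : (0 : ℝ) < |Q.σ (Q.π ⟨x, hx⟩)| - 1 := by linarith
      rw [div_lt_iff₀ h8] at hn
      have h9 : |(((n + 1 : ℕ) : ℝ)) * (((n + 2 : ℕ) : ℝ))⁻¹| = ((n : ℝ) + 1) / (n + 2) := by
        push_cast
        rw [abs_of_nonneg (by positivity), div_eq_mul_inv]
      rw [h9, div_mul_eq_mul_div, div_le_one (by positivity)] at h5
      nlinarith
    · refine ⟨1, 2, by norm_num, by norm_num, by norm_num, ?_⟩
      rintro ⟨h4, -⟩
      apply hx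
      have h5 : x = ((2 : ℕ) : K) * (((1 : ℕ) : K) * ((2 : ℕ) : K)⁻¹ * x) := by
        rw [Nat.cast_one, one_mul, ← mul_assoc,
          mul_inv_cancel₀ (real_nat_ne_zero Q (two_ne_zero)), one_mul]
      rw [h5]
      exact Q.O.mul_mem _ _ (natCast_mem Q.O 2) h4
  refine ⟨(m : K) * (n : K)⁻¹ * x, mul_ne_zero (mul_ne_zero (real_nat_ne_zero P hm)
    (inv_ne_zero (real_nat_ne_zero P hn))) hx0, ?_, small_inv_of_not_ball _ hy⟩
  obtain ⟨h6, h7⟩ := real_frac_mul P h1 m (n := n) hn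
  refine ⟨h6, ?_⟩
  change |P.σ (P.π ⟨_, h6⟩)| < 1
  rw [h7, abs_mul]
  have h9 : |(m : ℝ) * (n : ℝ)⁻¹| = (m : ℝ) / n := by
    rw [abs_of_nonneg (by positivity), div_eq_mul_inv]
  rw [h9]
  have h10 : (m : ℝ) / n < 1 := by
    rw [div_lt_one (by positivity)]
    exact_mod_cast hmn
  have h11 : (0 : ℝ) ≤ (m : ℝ) / n := by positivity
  nlinarith [abs_nonneg (P.σ (P.π ⟨x, h1⟩))]

/-! ### nonarchimedean places -/

theorem residue_eq_zero_iff {κ : Type} [Field κ] (v : Valuation κ ℝ≥0) (a : v.valuationSubring) :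
    IsLocalRing.residue v.valuationSubring a = 0 ↔ v a.1 < 1 := by
  rw [IsLocalRing.residue_eq_zero_iff, IsLocalRing.mem_maximalIdeal, mem_nonunits_iff]
  have ha : v a.1 ≤ 1 := a.2
  constructor
  · intro h
    refine lt_of_le_of_ne ha fun h1 => h ?_
    have h0 : a.1 ≠ 0 := by
      intro h2
      rw [h2, map_zero] at h1
      exact zero_ne_one h1
    have h3 : a.1⁻¹ ∈ v.valuationSubring := by
      change v a.1⁻¹ ≤ 1
      rw [map_inv₀, h1, inv_one]
    exact IsUnit.of_mul_eq_one ⟨a.1⁻¹, h3⟩ (Subtype.ext (mul_inv_cancel₀ h0))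
  · rintro h ⟨u, hu⟩
    have h1 := congrArg Subtype.val u.mul_inv
    rw [hu] at h1
    change a.1 * (((u⁻¹ : v.valuationSubringˣ) : v.valuationSubring) : κ) = 1 at h1
    have h2 := congrArg v h1
    rw [map_mul, map_one] at h2
    have h3 : v (((u⁻¹ : v.valuationSubringˣ) : v.valuationSubring) : κ) ≤ 1 :=
      ((u⁻¹ : v.valuationSubringˣ) : v.valuationSubring).2
    have h4 := mul_lt_one_of_lt_of_le h h3
    rw [h2] at h4
    exact lt_irrefl _ h4

/-- a number `n ≥ 2` is small at a local place -/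
theorem exists_nat_small (P : ValuedPlace K) (h : P.IsLocal) : ∃ n : ℕ, 2 ≤ n ∧ P.Small (n : K) := by
  obtain ⟨hfin, -⟩ := h
  haveI := Fintype.ofFinite (IsLocalRing.ResidueField P.v.valuationSubring)
  refine ⟨Fintype.card (IsLocalRing.ResidueField P.v.valuationSubring), Fintype.one_lt_card,
    natCast_mem P.O _, ?_⟩
  have h1 : (⟨((Fintype.card (IsLocalRing.ResidueField P.v.valuationSubring) : ℕ) : K),
      natCast_mem P.O _⟩ : P.O) =
      ((Fintype.card (IsLocalRing.ResidueField P.v.valuationSubring) : ℕ) : P.O) := rfl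
  rw [h1, map_natCast]
  have h2 := (residue_eq_zero_iff P.v
    ((Fintype.card (IsLocalRing.ResidueField P.v.valuationSubring) : ℕ) :
      P.v.valuationSubring)).1 (by
    rw [map_natCast]
    exact FiniteField.cast_card_eq_zero _)
  exact h2

theorem nonarch_add {P : ValuedPlace K} {x y : K}
    (hx : ∃ h : x ∈ P.O, P.v (P.π ⟨x, h⟩) ≤ 1) (hy : ∃ h : y ∈ P.O, P.v (P.π ⟨y, h⟩) ≤ 1) :
    ∃ h : x + y ∈ P.O, P.v (P.π ⟨x + y, h⟩) ≤ 1 := by
  obtain ⟨h1, h2⟩ := hx
  obtain ⟨h3, h4⟩ := hy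
  refine ⟨P.O.add_mem _ _ h1 h3, ?_⟩
  have h5 : (⟨x + y, P.O.add_mem _ _ h1 h3⟩ : P.O) = ⟨x, h1⟩ + ⟨y, h3⟩ := rfl
  rw [h5, map_add]
  exact (P.v.map_add _ _).trans (max_le h2 h4)

theorem not_nested {P Q : ValuedPlace K} (hP : P.IsLocal) (hQ : Q.IsLocal)
    (hsub : (LocalPlace.nonarch P hP).ball ⊆ (LocalPlace.nonarch Q hQ).ball) {a : K}
    (ha : a ∈ (LocalPlace.nonarch Q hQ).ball) (ha' : a ∉ (LocalPlace.nonarch P hP).ball) :
    False := by
  rw [← ball_toPl] at ha'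
  have h1 : (LocalPlace.nonarch P hP).toPl.Small a⁻¹ := small_inv_of_not_ball _ ha'
  have ha0 : a ≠ 0 := ne_zero_of_not_ball _ ha'
  have h2 : a⁻¹ ∈ (LocalPlace.nonarch Q hQ).ball :=
    hsub ((ball_toPl _ _).1 (ball_of_small _ h1))
  obtain ⟨h3, h4⟩ := ha
  obtain ⟨h5, h6⟩ := h2
  -- the value of `a` at `Q` is one
  have h7 : Q.v (Q.π ⟨a, h3⟩) * Q.v (Q.π ⟨a⁻¹, h5⟩) = 1 := by
    rw [← map_mul, ← map_mul]
    have h8 : (⟨a, h3⟩ : Q.O) * ⟨a⁻¹, h5⟩ = 1 := Subtype.ext (mul_inv_cancel₀ ha0)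
    rw [h8, map_one, map_one]
  have h9 : Q.v (Q.π ⟨a, h3⟩) = 1 := by
    refine le_antisymm h4 ?_
    by_contra hcon
    rw [not_le] at hcon
    have h10 := mul_lt_one_of_lt_of_le hcon h6
    rw [h7] at h10
    exact lt_irrefl _ h10
  obtain ⟨hfin, -⟩ := id hQ
  haveI := Fintype.ofFinite (IsLocalRing.ResidueField Q.v.valuationSubring)
  set α : Q.v.valuationSubring := ⟨Q.π ⟨a, h3⟩, h4⟩ with hα
  have h11 : IsLocalRing.residue Q.v.valuationSubring α ≠ 0 := by
    intro h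
    rw [residue_eq_zero_iff] at h
    exact h.ne h9
  set n := Fintype.card (IsLocalRing.ResidueField Q.v.valuationSubring) with hn
  have hn2 : 2 ≤ n := Fintype.one_lt_card
  have h12 : IsLocalRing.residue Q.v.valuationSubring (α ^ (n - 1) - 1) = 0 := by
    rw [map_sub, map_pow, map_one, FiniteField.pow_card_sub_one_eq_one _ h11, sub_self]
  rw [residue_eq_zero_iff] at h12
  -- `c = a ^ (n - 1) - 1` is small at `Q`
  have hcO : a ^ (n - 1) - 1 ∈ Q.O := sub_mem (pow_mem h3 _) (one_mem _)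
  have hc : (LocalPlace.nonarch Q hQ).toPl.Small (a ^ (n - 1) - 1) := by
    rw [small_toPl_nonarch]
    refine ⟨hcO, ?_⟩
    have h13 : (⟨a ^ (n - 1) - 1, hcO⟩ : Q.O) = ⟨a, h3⟩ ^ (n - 1) - 1 := rfl
    rw [h13, map_sub, map_pow, map_one]
    exact h12
  have hcP : Ball (LocalPlace.nonarch P hP).toPl (a ^ (n - 1) - 1) := by
    by_contra hcon
    have h14 := small_inv_of_not_ball _ hcon
    have h15 := hsub ((ball_toPl _ _).1 (ball_of_small _ h14))
    rw [← ball_toPl] at h15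
    have h16 := small_mul _ hc h15
    rw [mul_inv_cancel₀ (ne_zero_of_not_ball _ hcon)] at h16
    exact not_small_one _ h16
  have h17 : Ball (LocalPlace.nonarch P hP).toPl (a ^ (n - 1)) := by
    rw [ball_toPl] at hcP ⊢
    have h18 := nonarch_add (P := P) hcP ((ball_toPl (.nonarch P hP) 1).1 (ball_one _))
    rw [sub_add_cancel] at h18
    exact h18
  obtain ⟨k, hk⟩ : ∃ k, n - 1 = k + 1 := ⟨n - 2, by omega⟩
  rw [hk] at h17
  have h19 := small_mul _ (small_pow _ h1 k) h17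
  rw [← mul_pow, inv_mul_cancel₀ ha0, one_pow] at h19
  exact not_small_one _ h19

theorem incomparable_of_ne (P Q : LocalPlace K) (h : P.ball ≠ Q.ball) :
    P.toPl.Incomparable Q.toPl := by
  have real_non : ∀ (P : RealPlace K) (Q : ValuedPlace K) (hQ : Q.IsLocal),
      (LocalPlace.real P).toPl.Incomparable (LocalPlace.nonarch Q hQ).toPl := by
    intro P Q hQ
    obtain ⟨n, hn, h1⟩ := exists_nat_small Q hQ
    have hn0 : n ≠ 0 := by omega
    refine ⟨(n : K)⁻¹, inv_ne_zero (real_nat_ne_zero P hn0), ?_, ?_⟩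
    · obtain ⟨h2, h3⟩ := real_inv_nat_mem P hn0
      refine ⟨h2, ?_⟩
      change |P.σ (P.π ⟨_, h2⟩)| < 1
      rw [h3, abs_of_nonneg (by positivity)]
      refine inv_lt_one_of_one_lt₀ ?_
      exact_mod_cast (by omega : 1 < n)
    · rw [inv_inv, small_toPl_nonarch]
      exact h1
  cases P with
  | real P =>
    cases Q with
    | real Q =>
      by_cases h1 : (LocalPlace.real P).ball ⊆ (LocalPlace.real Q).ball
      · obtain ⟨x, hx, hx'⟩ := Set.not_subset.1 fun h2 => h (h1.antisymm h2)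
        exact incomparable_symm (real_incomparable_aux Q P hx hx')
      · obtain ⟨x, hx, hx'⟩ := Set.not_subset.1 h1
        exact real_incomparable_aux P Q hx hx'
    | nonarch Q hQ => exact real_non P Q hQ
  | nonarch P hP =>
    cases Q with
    | real Q => exact incomparable_symm (real_non Q P hP)
    | nonarch Q hQ =>
      by_cases h1 : (LocalPlace.nonarch P hP).ball ⊆ (LocalPlace.nonarch Q hQ).ball
      · obtain ⟨x, hx, hx'⟩ := Set.not_subset.1 fun h2 => h (h1.antisymm h2)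
        exact (not_nested hP hQ h1 hx hx').elim
      · by_cases h2 : (LocalPlace.nonarch Q hQ).ball ⊆ (LocalPlace.nonarch P hP).ball
        · obtain ⟨x, hx, hx'⟩ := Set.not_subset.1 h1
          exact (not_nested hQ hP h2 hx hx').elim
        · obtain ⟨x, hx, hx'⟩ := Set.not_subset.1 h1
          obtain ⟨y, hy, hy'⟩ := Set.not_subset.1 h2
          rw [← ball_toPl] at hx hx' hy hy'
          exact incomparable_of_not_nested hx hx' hy hy'

end

/-- **Few local places.** -/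
theorem few_local (K : Type) [Field K] [FirstOrder.Ring.CompatibleRing K]
    (hK : NIPField K ∨ (∃ n, NIPnField n K) ∨ NTP2Field K) :
    ∃ N : ℕ, ∀ (K' : Type) [Field K'] [FirstOrder.Ring.CompatibleRing K'],
      FirstOrder.Language.ring.ElementarilyEquivalent K K' →
      ∀ P : Fin N → LocalPlace K', ∃ i j, i ≠ j ∧ (P i).ball = (P j).ball := by
  obtain ⟨N, hN⟩ := main_general (fun e d => boundedG_of_tame hK e d) 2
  refine ⟨N, fun K' _ _ hKK' P => ?_⟩
  by_contra hcon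
  push Not at hcon
  obtain ⟨i, hi⟩ := hN K' hKK' (fun i => (P i).toPl) fun i j hij =>
    incomparable_of_ne _ _ (hcon i j hij)
  exact toPl_not_dimLe (P i) hi

end Pool.Agent.R614.NF
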